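import Pool.Agent.Q206.EC.Stm

/-!
Lemma job EC-CUT (project EC of helper206).
-/

set_option autoImplicit false

namespace Pool.Agent.Q130.EC

open Finset Pool.Agent.Q206.EC

theorem cut : S_CUT := by
  intro ι _ _ w W I4 I5 T hdis hun h4 hs4 h5 c4 c5 hT hT3
  have k5 : 5 ≤ (I4 \ T).card := by
    have := le_card_sdiff T I4
    omega
  have l5 : 5 ≤ (I5 \ T).card := by
    have := le_card_sdiff T I5
    omega
  have hab : ∃ a b : ℕ, a ≤ (I4 \ T).card ∧ b ≤ (I5 \ T).card ∧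
      -1 ≤ 4 * (2 * (a : ℤ) - (I4 \ T).card) + 5 * (2 * (b : ℤ) - (I5 \ T).card) ∧
      4 * (2 * (a : ℤ) - (I4 \ T).card) + 5 * (2 * (b : ℤ) - (I5 \ T).card) ≤ 1 := by
    generalize (I4 \ T).card = k at *
    generalize (I5 \ T).card = l at *
    rcases Nat.even_or_odd' k with ⟨k', rfl | rfl⟩ <;> rcases Nat.even_or_odd' l with ⟨l', rfl | rfl⟩
    · exact ⟨k', l', by omega, by omega, by push_cast; omega, by push_cast; omega⟩
    · exact ⟨k' + 2, l' - 1, by omega, by omega, by omega, by omega⟩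
    · exact ⟨k' + 3, l' - 2, by omega, by omega, by omega, by omega⟩
    · exact ⟨k', l' + 1, by omega, by omega, by push_cast; omega, by push_cast; omega⟩
  obtain ⟨a, b, ha, hb, hlo, hhi⟩ := hab
  obtain ⟨R4, hR4, hR4c⟩ := exists_subset_card_eq ha
  obtain ⟨R5, hR5, hR5c⟩ := exists_subset_card_eq hb
  have hdisR : Disjoint R4 R5 := by
    refine disjoint_of_subset_left hR4 (disjoint_of_subset_right hR5 ?_)
    exact disjoint_of_subset_left sdiff_subset (disjoint_of_subset_right sdiff_subset hdis)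
  have hsub4 : R4 ⊆ I4 := hR4.trans sdiff_subset
  have hsub5 : R5 ⊆ I5 := hR5.trans sdiff_subset
  refine ⟨R4 ∪ R5, ?_, ?_⟩
  · rw [disjoint_union_left]
    exact ⟨disjoint_of_subset_left hR4 sdiff_disjoint, disjoint_of_subset_left hR5 sdiff_disjoint⟩
  have hTc : Tᶜ = (I4 \ T) ∪ (I5 \ T) := by
    rw [← union_sdiff_distrib, hun, compl_eq_univ_sdiff]
  have hdisT : Disjoint (I4 \ T) (I5 \ T) :=
    disjoint_of_subset_left sdiff_subset (disjoint_of_subset_right sdiff_subset hdis)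
  have hRT : R4 ∪ R5 ⊆ Tᶜ := by
    rw [hTc]
    exact union_subset_union hR4 hR5
  have e1 : ∑ i ∈ Tᶜ \ (R4 ∪ R5), (w i : ℤ) + ∑ i ∈ R4 ∪ R5, (w i : ℤ) = ∑ i ∈ Tᶜ, (w i : ℤ) :=
    sum_sdiff hRT
  have e2 : ∑ i ∈ Tᶜ, (w i : ℤ) = ∑ i ∈ I4 \ T, (w i : ℤ) + ∑ i ∈ I5 \ T, (w i : ℤ) := by
    rw [hTc, sum_union hdisT]
  have e3 : ∑ i ∈ R4 ∪ R5, (w i : ℤ) = ∑ i ∈ R4, (w i : ℤ) + ∑ i ∈ R5, (w i : ℤ) :=
    sum_union hdisR
  have f5 : ∀ S ⊆ I5, ∑ i ∈ S, (w i : ℤ) = S.card * (5 * (W : ℤ)) := by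
    intro S hS
    rw [sum_congr rfl (fun i hi => by rw [h5 i (hS hi)]), sum_const, nsmul_eq_mul]
    push_cast
    ring
  have f4 : ∀ S ⊆ I4, ∑ i ∈ S, (w i : ℤ) = S.card * (4 * (W : ℤ)) +
      ((∑ i ∈ S, (w i - 4 * W) : ℕ) : ℤ) := by
    intro S hS
    have : ∀ i ∈ S, (w i : ℤ) = 4 * (W : ℤ) + ((w i - 4 * W : ℕ) : ℤ) := by
      intro i hi
      have := h4 i (hS hi)
      omega
    rw [sum_congr rfl this, sum_add_distrib, sum_const, nsmul_eq_mul]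
    push_cast
    ring
  have s1 : ∑ i ∈ R4, (w i - 4 * W) ≤ ∑ i ∈ I4 \ T, (w i - 4 * W) := sum_le_sum_of_subset hR4
  have s2 : ∑ i ∈ I4 \ T, (w i - 4 * W) ≤ ∑ i ∈ I4, (w i - 4 * W) :=
    sum_le_sum_of_subset sdiff_subset
  have g1 := f4 R4 hsub4
  have g2 := f4 (I4 \ T) sdiff_subset
  have g3 := f5 R5 hsub5
  have g4 := f5 (I5 \ T) sdiff_subset
  rw [hR4c] at g1
  rw [hR5c] at g3
  obtain ⟨i0, hi0⟩ := hT
  have hw0 : 4 * (W : ℤ) ≤ w i0 := by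
    have : i0 ∈ I4 ∪ I5 := by rw [hun]; exact mem_univ _
    rcases mem_union.1 this with h | h
    · exact_mod_cast h4 i0 h
    · rw [h5 i0 h]
      push_cast
      omega
  have hTs : 4 * (W : ℤ) ≤ ∑ i ∈ T, ((w i : ℤ) + 2) := by
    have := single_le_sum (f := fun i => (w i : ℤ) + 2) (fun i _ => by positivity) hi0
    linarith
  generalize (∑ i ∈ R4, (w i - 4 * W) : ℕ) = s at *
  generalize (∑ i ∈ I4 \ T, (w i - 4 * W) : ℕ) = t at *
  generalize (I4 \ T).card = k at *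
  generalize (I5 \ T).card = l at *
  set X : ℤ := 4 * (2 * (a : ℤ) - k) + 5 * (2 * (b : ℤ) - l) with hX
  have hD : ∑ i ∈ R4 ∪ R5, (w i : ℤ) - ∑ i ∈ Tᶜ \ (R4 ∪ R5), (w i : ℤ) =
      W * X + (2 * (s : ℤ) - t) := by
    have : ∑ i ∈ Tᶜ \ (R4 ∪ R5), (w i : ℤ) =
        ∑ i ∈ I4 \ T, (w i : ℤ) + ∑ i ∈ I5 \ T, (w i : ℤ) - ∑ i ∈ R4 ∪ R5, (w i : ℤ) := by
      linarith
    rw [this, e3, g1, g2, g3, g4, hX]
    ring
  rw [hD]
  have hWX : |(W : ℤ) * X| ≤ W := by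
    rw [abs_mul, abs_of_nonneg (by positivity : (0 : ℤ) ≤ W)]
    have : |X| ≤ 1 := abs_le.2 ⟨hlo, hhi⟩
    calc (W : ℤ) * |X| ≤ W * 1 := mul_le_mul_of_nonneg_left this (by positivity)
      _ = W := mul_one _
  have hst : |2 * (s : ℤ) - t| ≤ W := by
    rw [abs_le]
    constructor <;> omega
  have := abs_add_le ((W : ℤ) * X) (2 * (s : ℤ) - t)
  linarith

end Pool.Agent.Q130.EC
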