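import Mathlib
import Pool.Agent.H157R2.Menger

/-!
# Average edge-connectivity: definitions and basic facts (MP_3eb4be)
-/

namespace Q130.EC

open SimpleGraph Finset

/-- There are `k` pairwise edge-disjoint paths from `v` to `w`. -/
def DisjPaths {V : Type} (G : SimpleGraph V) (v w : V) (k : ℕ) : Prop :=
  ∃ p : Fin k → G.Walk v w, (∀ i, (p i).IsPath) ∧
    Pairwise fun i j => List.Disjoint (p i).edges (p j).edges

/-- `λ(v, w)`: the maximum number of pairwise edge-disjoint `v`-`w` paths. -/
noncomputable def lam {V : Type} (G : SimpleGraph V) (v w : V) : ℕ :=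
  sSup {k : ℕ | DisjPaths G v w k}

/-- The average edge-connectivity: the average of `λ(v, w)` over all pairs of distinct
vertices. -/
noncomputable def avgEdgeConn {V : Type} [Fintype V] (G : SimpleGraph V) : ℚ := by
  classical
  exact (∑ v : V, ∑ w ∈ univ.erase v, (lam G v w : ℚ)) /
    ((Fintype.card V : ℚ) * ((Fintype.card V : ℚ) - 1))

/-- `G` contains a `t`-edge-connected subgraph (with at least two vertices). -/
def HasEdgeConnSub {V : Type} (G : SimpleGraph V) (t : ℕ) : Prop :=
  ∃ H : G.Subgraph, H.verts.Nontrivial ∧ H.coe.IsEdgeConnected t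

variable {V : Type} [Fintype V] [DecidableEq V] (G : SimpleGraph V) [DecidableRel G.Adj]

/-- Edge-disjoint paths starting at `v` use distinct edges at `v`. -/
lemma DisjPaths.le_degree {v w : V} (hvw : v ≠ w) {k : ℕ} (h : DisjPaths G v w k) :
    k ≤ G.degree v := by
  obtain ⟨p, hp, hd⟩ := h
  have hfirst : ∀ i, ∃ x, G.Adj v x ∧ s(v, x) ∈ (p i).edges := by
    intro i
    cases h : p i with
    | nil => exact absurd rfl hvw
    | cons hadj q => exact ⟨_, hadj, by simp⟩
  choose f hf1 hf2 using hfirst
  have hinj : Function.Injective f := by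
    intro i j hij
    by_contra hne
    have := hd hne (hf2 i)
    rw [hij] at this
    exact this (hf2 j)
  rw [← G.card_neighborFinset_eq_degree v]
  calc k = (Finset.univ : Finset (Fin k)).card := by simp
    _ = (Finset.univ.image f).card := (Finset.card_image_of_injective _ hinj).symm
    _ ≤ _ := Finset.card_le_card (by
      intro x hx
      obtain ⟨i, _, rfl⟩ := Finset.mem_image.1 hx
      exact (G.mem_neighborFinset v _).2 (hf1 i))

omit [Fintype V] [DecidableEq V] [DecidableRel G.Adj] in
lemma DisjPaths.symm {v w : V} {k : ℕ} (h : DisjPaths G v w k) : DisjPaths G w v k := by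
  obtain ⟨p, hp, hd⟩ := h
  refine ⟨fun i => (p i).reverse, fun i => (hp i).reverse, fun i j hij => ?_⟩
  simp only [Walk.edges_reverse]
  intro e he he'
  exact hd hij (List.mem_reverse.1 he) (List.mem_reverse.1 he')

lemma lam_bdd {v w : V} (hvw : v ≠ w) : BddAbove {k : ℕ | DisjPaths G v w k} :=
  ⟨G.degree v, fun _ hk => hk.le_degree G hvw⟩

lemma lam_mem {v w : V} (hvw : v ≠ w) : DisjPaths G v w (lam G v w) := by
  have h0 : DisjPaths G v w 0 := ⟨fun i => i.elim0, fun i => i.elim0, fun i => i.elim0⟩
  exact Nat.sSup_mem (s := {k : ℕ | DisjPaths G v w k}) ⟨0, h0⟩ (lam_bdd G hvw)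

lemma lam_le_left {v w : V} (hvw : v ≠ w) : lam G v w ≤ G.degree v :=
  (lam_mem G hvw).le_degree G hvw

lemma lam_le_right {v w : V} (hvw : v ≠ w) : lam G v w ≤ G.degree w :=
  ((lam_mem G hvw).symm G).le_degree G hvw.symm

/-- Menger's theorem: `λ(v, w) ≥ m` if every cut separating `v` and `w` has at least `m`
edges. -/
lemma le_lam {v w : V} (hvw : v ≠ w) (m : ℕ)
    (h : ∀ S : Finset V, v ∈ S → w ∉ S → m ≤ (Pool.Agent.H157R2.Menger.cut G S).card) :
    m ≤ lam G v w :=
  le_csSup (lam_bdd G hvw)
    (show DisjPaths G v w m from Pool.Agent.H157R2.Menger.edge_menger G v w hvw m h)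

/-- `n (n-1) λ̄ ≤ 2 (n - 1) |E|`. -/
lemma sum_lam_le : ∑ v : V, ∑ w ∈ univ.erase v, lam G v w ≤
    2 * ((Fintype.card V - 1) * G.edgeFinset.card) := by
  classical
  -- `2 λ(v, w) ≤ deg v + deg w`
  have h1 : 2 * ∑ v : V, ∑ w ∈ univ.erase v, lam G v w ≤
      ∑ v : V, ∑ w ∈ univ.erase v, (G.degree v + G.degree w) := by
    rw [Finset.mul_sum]
    refine Finset.sum_le_sum fun v _ => ?_
    rw [Finset.mul_sum]
    refine Finset.sum_le_sum fun w hw => ?_
    have hvw : v ≠ w := (Finset.ne_of_mem_erase hw).symm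
    have := lam_le_left G hvw
    have := lam_le_right G hvw
    omega
  have h2 : ∑ v : V, ∑ w ∈ univ.erase v, G.degree v =
      (Fintype.card V - 1) * ∑ v : V, G.degree v := by
    rw [Finset.mul_sum]
    refine Finset.sum_congr rfl fun v _ => ?_
    rw [Finset.sum_const, Finset.card_erase_of_mem (Finset.mem_univ _), Finset.card_univ,
      smul_eq_mul]
  have h3 : ∑ v : V, ∑ w ∈ univ.erase v, G.degree w =
      ∑ v : V, ∑ w ∈ univ.erase v, G.degree v := by
    have key : ∀ f : V → V → ℕ, ∑ v : V, ∑ w ∈ univ.erase v, f v w =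
        ∑ w : V, ∑ v ∈ univ.erase w, f v w := by
      intro f
      refine Finset.sum_comm' ?_
      intro x y
      simp [ne_comm]
    exact key fun v w => G.degree w
  have h4 := G.sum_degrees_eq_twice_card_edges
  simp only [Finset.sum_add_distrib] at h1
  rw [h3, h2, h4] at h1
  nlinarith [h1]

/-- The number of edges with both ends in `S`. -/
def eIn (S : Finset V) : ℕ := (G.edgeFinset.filter fun e => ∀ x ∈ e, x ∈ S).card

/-- Mader's theorem, in the simple form needed: more than `(t - 1)(|S| - 1)` edges in `S` force a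
`t`-edge-connected subgraph. -/
lemma mader (s : ℕ) : ∀ (n : ℕ) (S : Finset V), S.card = n → s * (S.card - 1) < eIn G S →
    HasEdgeConnSub G (s + 1) := by
  classical
  intro n
  induction n using Nat.strong_induction_on with
  | _ n ih =>
  intro S hS hlt
  -- `S` has at least two vertices
  have hE : 0 < eIn G S := lt_of_le_of_lt (Nat.zero_le _) hlt
  obtain ⟨e, he⟩ := Finset.card_pos.1 hE
  rw [Finset.mem_filter, mem_edgeFinset] at he
  have hnt : (S : Set V).Nontrivial := by
    induction e with
    | _ a b =>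
      have hadj : G.Adj a b := he.1
      exact ⟨a, by simpa using he.2 a (by simp), b, by simpa using he.2 b (by simp), hadj.ne⟩
  by_cases hcon : ((⊤ : G.Subgraph).induce (S : Set V)).coe.IsEdgeConnected (s + 1)
  · exact ⟨_, by simpa using hnt, hcon⟩
  -- a small cut
  simp only [IsEdgeConnected, not_forall] at hcon
  obtain ⟨u, v, huv⟩ := hcon
  simp only [IsEdgeReachable, not_forall] at huv
  obtain ⟨D, hD, hnr⟩ := huv
  set H := ((⊤ : G.Subgraph).induce (S : Set V)).coe with hH
  -- the reachable part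
  let A : Finset V := S.filter fun x => ∃ hx : x ∈ ((⊤ : G.Subgraph).induce (S : Set V)).verts,
    (H.deleteEdges D).Reachable u ⟨x, hx⟩
  let B : Finset V := S \ A
  have hAS : A ⊆ S := Finset.filter_subset _ _
  have huS : (u : V) ∈ S := by have := u.2; simpa using this
  have hvS : (v : V) ∈ S := by have := v.2; simpa using this
  have huA : (u : V) ∈ A := Finset.mem_filter.2 ⟨huS, u.2, Reachable.refl _⟩
  have hvB : (v : V) ∈ B := by
    refine Finset.mem_sdiff.2 ⟨hvS, fun h => ?_⟩
    obtain ⟨_, hx, hr⟩ := Finset.mem_filter.1 h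
    exact hnr hr
  have hcardAB : A.card + B.card = S.card := by
    have h0 : B.card + A.card = S.card := Finset.card_sdiff_add_card_eq_card hAS
    omega
  have hApos : 0 < A.card := Finset.card_pos.2 ⟨_, huA⟩
  have hBpos : 0 < B.card := Finset.card_pos.2 ⟨_, hvB⟩
  -- the cross edges
  let C : Finset (Sym2 V) := (G.edgeFinset.filter fun e => ∀ x ∈ e, x ∈ S) \
    ((G.edgeFinset.filter fun e => ∀ x ∈ e, x ∈ A) ∪ (G.edgeFinset.filter fun e => ∀ x ∈ e, x ∈ B))
  have hDfin : D.Finite := by
    apply Set.finite_of_encard_le_coe (k := s + 1)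
    exact_mod_cast hD.le
  have hCD : (C : Set (Sym2 V)) ⊆ (Sym2.map Subtype.val) '' D := by
    intro e he
    rw [Finset.mem_coe, Finset.mem_sdiff, Finset.mem_union, not_or, Finset.mem_filter,
      Finset.mem_filter, Finset.mem_filter, mem_edgeFinset] at he
    obtain ⟨⟨heG, heS⟩, heA, heB⟩ := he
    -- one end in `A` and one end in `B`
    have hcross : ∀ a b, e = s(a, b) → a ∈ A → b ∈ B → e ∈ (Sym2.map Subtype.val) '' D := by
      intro a b heab haA hbB
      subst heab
      obtain ⟨haS, haV, har⟩ := Finset.mem_filter.1 haA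
      obtain ⟨hbS, hbA⟩ := Finset.mem_sdiff.1 hbB
      have hbV : b ∈ ((⊤ : G.Subgraph).induce (S : Set V)).verts := by simpa using hbS
      have hadj : H.Adj ⟨a, haV⟩ ⟨b, hbV⟩ := by
        rw [hH, Subgraph.coe_adj]
        simp only [Subgraph.induce_adj, Subgraph.top_adj]
        exact ⟨by simpa using haS, by simpa using hbS, heG⟩
      by_contra hnot
      apply hbA
      refine Finset.mem_filter.2 ⟨hbS, hbV, har.trans (Adj.reachable ?_)⟩
      rw [deleteEdges_adj]
      refine ⟨hadj, fun hmem => hnot ⟨_, hmem, ?_⟩⟩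
      simp
    induction e with
    | _ a b =>
      have haS := heS a (by simp)
      have hbS := heS b (by simp)
      by_cases ha : a ∈ A
      · by_cases hb : b ∈ A
        · exfalso
          apply heA
          refine ⟨heG, ?_⟩
          intro x hx
          rcases Sym2.mem_iff.1 hx with rfl | rfl <;> assumption
        · exact hcross a b rfl ha (Finset.mem_sdiff.2 ⟨hbS, hb⟩)
      · by_cases hb : b ∈ A
        · exact hcross b a Sym2.eq_swap hb (Finset.mem_sdiff.2 ⟨haS, ha⟩)
        · exfalso
          apply heB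
          refine ⟨heG, ?_⟩
          intro x hx
          rcases Sym2.mem_iff.1 hx with rfl | rfl
          · exact Finset.mem_sdiff.2 ⟨haS, ha⟩
          · exact Finset.mem_sdiff.2 ⟨hbS, hb⟩
  have hCcard : C.card ≤ s := by
    have h1 : (C : Set (Sym2 V)).encard ≤ D.encard :=
      (Set.encard_le_encard hCD).trans (Set.encard_image_le _ _)
    have h2 : (C : Set (Sym2 V)).encard < ((s + 1 : ℕ) : ℕ∞) := lt_of_le_of_lt h1 hD
    rw [Set.encard_coe_eq_coe_finsetCard] at h2
    have := Nat.cast_lt.1 h2
    omega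
  have hsum : eIn G S ≤ eIn G A + eIn G B + C.card := by
    have h1 : (G.edgeFinset.filter fun e => ∀ x ∈ e, x ∈ S) ⊆
        ((G.edgeFinset.filter fun e => ∀ x ∈ e, x ∈ A) ∪
          (G.edgeFinset.filter fun e => ∀ x ∈ e, x ∈ B)) ∪ C := by
      intro e he
      by_cases h : e ∈ ((G.edgeFinset.filter fun e => ∀ x ∈ e, x ∈ A) ∪
          (G.edgeFinset.filter fun e => ∀ x ∈ e, x ∈ B))
      · exact Finset.mem_union_left _ h
      · exact Finset.mem_union_right _ (Finset.mem_sdiff.2 ⟨he, h⟩)
    calc eIn G S ≤ _ := Finset.card_le_card h1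
      _ ≤ _ := Finset.card_union_le _ _
      _ ≤ _ := Nat.add_le_add_right (Finset.card_union_le _ _) _
  by_contra hnone
  have hA : ¬ s * (A.card - 1) < eIn G A := fun h => hnone (ih A.card (by omega) A rfl h)
  have hB : ¬ s * (B.card - 1) < eIn G B := fun h => hnone (ih B.card (by omega) B rfl h)
  push Not at hA hB
  have h5 : s * (A.card - 1) + s * (B.card - 1) + s = s * (S.card - 1) := by
    obtain ⟨a, ha⟩ : ∃ a, A.card = a + 1 := ⟨A.card - 1, by omega⟩
    obtain ⟨b, hb⟩ : ∃ b, B.card = b + 1 := ⟨B.card - 1, by omega⟩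
    have : S.card - 1 = a + b + 1 := by omega
    rw [this, ha, hb]
    simp only [Nat.add_sub_cancel]
    ring
  omega

end Q130.EC
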