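import Pool.Agent.Q206.EC.Stm

/-!
Lemma job EC-HALL (project EC of helper206).
-/

set_option autoImplicit false

namespace Pool.Agent.Q130.EC

open Finset Pool.Agent.Q206.EC

/-- the remaining colours of a vertex -/
def Rem (l : List ℕ) (L : ((i : Fin l.length) × Option (Fin (l.get i))) → Finset ℕ)
    (g : Fin l.length → ℕ) (v : (i : Fin l.length) × Option (Fin (l.get i))) : Finset ℕ :=
  if v.2.isSome then (L v).erase (g v.1) else {g v.1}

theorem rem_count (l : List ℕ) (L : ((i : Fin l.length) × Option (Fin (l.get i))) → Finset ℕ)
    (g : Fin l.length → ℕ) (hL : ∀ v, (L v).card = 2) (c : ℕ) :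
    (univ.filter (fun v => Rem l L g v = {c})).card ≤
      forced (fun i => l.get i) (fun i j => L ⟨i, some j⟩) g c := by
  unfold forced
  rw [← univ_sigma_univ, card_filter, sum_sigma]
  refine sum_le_sum fun i _ => ?_
  rw [Fintype.sum_option]
  unfold fc nl
  have h0 : Rem l L g ⟨i, none⟩ = {g i} := by simp [Rem]
  have h1 : ∀ j, Rem l L g ⟨i, some j⟩ = (L ⟨i, some j⟩).erase (g i) := by
    intro j
    simp [Rem]
  rw [h0]
  by_cases hc : g i = c
  · rw [if_pos hc, if_pos (by rw [hc])]
    have : ∑ j : Fin (l.get i), (if Rem l L g ⟨i, some j⟩ = {c} then 1 else 0) = 0 := by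
      refine sum_eq_zero fun j _ => ?_
      rw [if_neg]
      rw [h1 j]
      intro h
      have : c ∈ (L ⟨i, some j⟩).erase (g i) := by rw [h]; exact mem_singleton_self _
      rw [hc] at this
      exact notMem_erase _ _ this
    omega
  · rw [if_neg hc, if_neg (by intro h; exact hc (singleton_injective h)), zero_add, ← card_filter]
    refine card_le_card ?_
    intro j hj
    rw [mem_filter] at hj ⊢
    refine ⟨mem_univ _, ?_⟩
    have h2 := hj.2
    rw [h1 j] at h2
    have hgm : g i ∈ L ⟨i, some j⟩ := by
      by_contra hno
      rw [erase_eq_of_notMem hno] at h2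
      have := hL ⟨i, some j⟩
      rw [h2, card_singleton] at this
      omega
    have h3 := insert_erase hgm
    rw [h2] at h3
    exact h3.symm

theorem hall : S_HALL := by
  intro l K L g hL hg hsum hf
  classical
  have hne : ∀ v, (Rem l L g v).Nonempty := by
    rintro ⟨i, o⟩
    cases o with
    | none => simp [Rem]
    | some j =>
      simp only [Rem, Option.isSome_some, if_true]
      rw [← card_pos]
      have := hL ⟨i, some j⟩
      have := pred_card_le_card_erase (s := L ⟨i, some j⟩) (a := g i)
      omega
  have hsub : ∀ v, Rem l L g v ⊆ L v := by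
    rintro ⟨i, o⟩
    cases o with
    | none => simp [Rem, hg i]
    | some j =>
      simp only [Rem, Option.isSome_some, if_true]
      exact erase_subset _ _
  have hV : Fintype.card ((i : Fin l.length) × Option (Fin (l.get i))) = 2 * K := by
    rw [Fintype.card_sigma, ← hsum]
    refine sum_congr rfl fun i _ => ?_
    rw [Fintype.card_option, Fintype.card_fin]
  have hall : ∀ A : Finset ((i : Fin l.length) × Option (Fin (l.get i))),
      A.card ≤ (A.biUnion (fun v => Rem l L g v ×ˢ (univ : Finset (Fin K)))).card := by
    intro A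
    have e : A.biUnion (fun v => Rem l L g v ×ˢ (univ : Finset (Fin K))) =
        (A.biUnion (Rem l L g)) ×ˢ (univ : Finset (Fin K)) := by
      ext ⟨a, b⟩
      simp only [mem_biUnion, mem_product, mem_univ, and_true]
    rw [e, card_product, card_univ, Fintype.card_fin]
    rcases A.eq_empty_or_nonempty with h | ⟨v0, hv0⟩
    · rw [h]; simp
    · rcases Nat.lt_or_ge (A.biUnion (Rem l L g)).card 2 with h2 | h2
      · have h1 : (A.biUnion (Rem l L g)).card = 1 := by
          have : 0 < (A.biUnion (Rem l L g)).card := by
            rw [card_pos]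
            obtain ⟨a, ha⟩ := hne v0
            exact ⟨a, mem_biUnion.2 ⟨v0, hv0, ha⟩⟩
          omega
        obtain ⟨c, hc⟩ := card_eq_one.1 h1
        rw [h1, one_mul]
        refine le_trans ?_ (le_trans (rem_count l L g hL c) (hf c))
        refine card_le_card ?_
        intro v hv
        rw [mem_filter]
        refine ⟨mem_univ _, ?_⟩
        have : Rem l L g v ⊆ {c} := by
          rw [← hc]
          exact subset_biUnion_of_mem (Rem l L g) hv
        rcases subset_singleton_iff.1 this with h | h
        · exact absurd h (hne v).ne_empty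
        · exact h
      · calc A.card ≤ Fintype.card ((i : Fin l.length) × Option (Fin (l.get i))) :=
              card_le_univ A
          _ = 2 * K := hV
          _ ≤ _ := Nat.mul_le_mul_right K h2
  obtain ⟨F, hFi, hF⟩ := (all_card_le_biUnion_card_iff_exists_injective
    (fun v => Rem l L g v ×ˢ (univ : Finset (Fin K)))).1 hall
  have hFR : ∀ v, (F v).1 ∈ Rem l L g v := fun v => (mem_product.1 (hF v)).1
  have hprop : ∀ (i : Fin l.length) (j : Fin (l.get i)),
      (F ⟨i, none⟩).1 ≠ (F ⟨i, some j⟩).1 := by
    intro i j
    have a := hFR ⟨i, none⟩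
    have b := hFR ⟨i, some j⟩
    simp only [Rem, Option.isSome_none, Bool.false_eq_true, if_false, mem_singleton] at a
    simp only [Rem, Option.isSome_some, if_true] at b
    rw [a]
    exact fun h => ne_of_mem_erase b h.symm
  refine ⟨fun v => (F v).1, fun v => hsub v (hFR v), ?_, ?_⟩
  · rintro ⟨i, o⟩ ⟨i', o'⟩ ⟨h1, h2⟩
    simp only at h1 h2
    subst h1
    cases o with
    | none =>
      cases o' with
      | none => exact absurd rfl h2
      | some j => exact hprop i j
    | some j =>
      cases o' with
      | none => exact (hprop i j).symm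
      | some j' => exact absurd rfl h2
  · intro c
    have : Nat.card {v // (F v).1 = c} ≤ Nat.card (Fin K) := by
      refine Nat.card_le_card_of_injective (fun v => (F v.1).2) ?_
      rintro ⟨u, hu⟩ ⟨v, hv⟩ h
      simp only at h
      have : F u = F v := Prod.ext (hu.trans hv.symm) h
      exact Subtype.ext (hFi this)
    rwa [Nat.card_fin] at this

end Pool.Agent.Q130.EC
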