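import Pool.Agent.Q130.EC.Defs

/-!
# Powers of paths (MP_3eb4be)
-/

namespace Q130.EC

open SimpleGraph Finset Pool.Agent.H157R2.Menger

/-- The `t`-th power of the path on `n` vertices. -/
def pathPower (n t : ℕ) : SimpleGraph (Fin n) where
  Adj i j := i ≠ j ∧ (i : ℕ) ≤ j + t ∧ (j : ℕ) ≤ i + t
  symm := ⟨fun _ _ h => ⟨h.1.symm, h.2.2, h.2.1⟩⟩
  loopless := ⟨fun _ h => h.1 rfl⟩

instance (n t : ℕ) : DecidableRel (pathPower n t).Adj :=
  fun i j => inferInstanceAs (Decidable (i ≠ j ∧ (i : ℕ) ≤ j + t ∧ (j : ℕ) ≤ i + t))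

section cut

variable {V : Type} [Fintype V] [DecidableEq V] (G : SimpleGraph V) [DecidableRel G.Adj]

lemma mem_cut {S : Finset V} {a b : V} (h : G.Adj a b) (ha : a ∈ S) (hb : b ∉ S) :
    s(a, b) ∈ cut G S := by
  rw [cut, Finset.mem_filter, mem_edgeFinset]
  exact ⟨h, ⟨a, by simp, ha⟩, ⟨b, by simp, hb⟩⟩

lemma mem_cut' {S : Finset V} {a b : V} (h : G.Adj a b) (ha : a ∉ S) (hb : b ∈ S) :
    s(a, b) ∈ cut G S := by
  rw [Sym2.eq_swap]; exact mem_cut G h.symm hb ha

lemma edge_of_mem_cut {S : Finset V} {e : Sym2 V} (h : e ∈ cut G S) : e ∈ G.edgeSet := by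
  rw [cut, Finset.mem_filter, mem_edgeFinset] at h
  exact h.1

open Classical in
/-- The edges of the cut `S` inside `W`. -/
noncomputable def cutIn (S W : Finset V) : Finset (Sym2 V) :=
  (cut G S).filter fun e => ∀ x ∈ e, x ∈ W

lemma mem_cutIn {S W : Finset V} {e : Sym2 V} :
    e ∈ cutIn G S W ↔ e ∈ cut G S ∧ ∀ x ∈ e, x ∈ W := by
  rw [cutIn, Finset.mem_filter]

/-- A clique met by both sides of a cut contributes many edges. -/
lemma clique_cut (S W : Finset V) (hW : ∀ a ∈ W, ∀ b ∈ W, a ≠ b → G.Adj a b) {a b : V}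
    (ha : a ∈ W) (hb : b ∈ W) (haS : a ∈ S) (hbS : b ∉ S) :
    W.card - 1 ≤ (cutIn G S W).card := by
  classical
  have hab : a ≠ b := by rintro rfl; exact hbS haS
  rw [← Finset.card_erase_of_mem ha]
  refine Finset.card_le_card_of_injOn (fun x => if x ∈ S then s(x, b) else s(a, x)) ?_ ?_
  · intro x hx
    rw [Finset.mem_coe] at hx
    obtain ⟨hxa, hxW⟩ := Finset.mem_erase.1 hx
    rw [Finset.mem_coe, mem_cutIn]
    by_cases hxS : x ∈ S
    · simp only [hxS, if_true]
      have hxb : x ≠ b := by rintro rfl; exact hbS hxS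
      refine ⟨mem_cut G (hW x hxW b hb hxb) hxS hbS, ?_⟩
      intro y hy
      rcases Sym2.mem_iff.1 hy with rfl | rfl <;> assumption
    · simp only [hxS, if_false]
      refine ⟨mem_cut G (hW a ha x hxW hxa.symm) haS hxS, ?_⟩
      intro y hy
      rcases Sym2.mem_iff.1 hy with rfl | rfl <;> assumption
  · intro x hx y hy hxy
    rw [Finset.mem_coe] at hx hy
    obtain ⟨hxa, hxW⟩ := Finset.mem_erase.1 hx
    obtain ⟨hya, hyW⟩ := Finset.mem_erase.1 hy
    by_cases hxS : x ∈ S <;> by_cases hyS : y ∈ S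
    · simp only [hxS, hyS, if_true, Sym2.eq_iff] at hxy
      rcases hxy with h | h
      · exact h.1
      · rw [h.1, h.2]
    · simp only [hxS, hyS, if_true, if_false, Sym2.eq_iff] at hxy
      rcases hxy with h | h
      · exact absurd h.1 hxa
      · exact absurd (h.1 ▸ hxS) hyS
    · simp only [hxS, hyS, if_true, if_false, Sym2.eq_iff] at hxy
      rcases hxy with h | h
      · exact absurd h.1.symm hya
      · exact absurd (h.2 ▸ hyS) hxS
    · simp only [hxS, hyS, if_false, Sym2.eq_iff] at hxy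
      rcases hxy with h | h
      · exact h.2
      · rw [← h.1, h.2]

end cut

section window

variable {n t : ℕ}

/-- The window `{i, …, i + t}`. -/
def win (n t i : ℕ) : Finset (Fin n) := univ.filter fun x => i ≤ (x : ℕ) ∧ (x : ℕ) ≤ i + t

lemma mem_win {i : ℕ} {x : Fin n} : x ∈ win n t i ↔ i ≤ (x : ℕ) ∧ (x : ℕ) ≤ i + t := by
  simp [win]

lemma card_win {i : ℕ} (h : i + t < n) : (win n t i).card = t + 1 := by
  have : (win n t i).map Fin.valEmbedding = Finset.Icc i (i + t) := by
    ext x
    simp only [Finset.mem_map, mem_win, Fin.valEmbedding_apply, Finset.mem_Icc]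
    constructor
    · rintro ⟨a, h, rfl⟩; exact h
    · intro hx; exact ⟨⟨x, by omega⟩, hx, rfl⟩
  rw [← Finset.card_map Fin.valEmbedding, this, Nat.card_Icc]
  omega

lemma win_clique {i : ℕ} : ∀ a ∈ win n t i, ∀ b ∈ win n t i, a ≠ b → (pathPower n t).Adj a b := by
  intro a ha b hb hab
  rw [mem_win] at ha hb
  exact ⟨hab, by omega, by omega⟩

/-- A window met by both sides contributes at least `t` edges. -/
lemma win_cut {S : Finset (Fin n)} {i : ℕ} (h : i + t < n) {a b : Fin n} (ha : a ∈ win n t i)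
    (hb : b ∈ win n t i) (hab : ¬ (a ∈ S ↔ b ∈ S)) :
    t ≤ (cutIn (pathPower n t) S (win n t i)).card := by
  have hc := card_win h
  by_cases haS : a ∈ S
  · have hbS : b ∉ S := fun hbS => hab ⟨fun _ => hbS, fun _ => haS⟩
    have := clique_cut (pathPower n t) S (win n t i) win_clique ha hb haS hbS
    omega
  · have hbS : b ∈ S := by
      by_contra hbS
      exact hab ⟨fun h => absurd h haS, fun h => absurd h hbS⟩
    have := clique_cut (pathPower n t) S (win n t i) win_clique hb ha hbS haS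
    omega

/-- Two windows with at most one common vertex. -/
lemma two_win {S : Finset (Fin n)} {i j : ℕ} (hi : i + t < n) (hj : j + t < n) (hij : i + t ≤ j)
    {a b c d : Fin n} (ha : a ∈ win n t i)
    (hb : b ∈ win n t i) (hab : ¬ (a ∈ S ↔ b ∈ S)) (hc : c ∈ win n t j)
    (hd : d ∈ win n t j) (hcd : ¬ (c ∈ S ↔ d ∈ S)) :
    2 * t ≤ (cut (pathPower n t) S).card := by
  classical
  have h1 := win_cut hi ha hb hab
  have h2 := win_cut hj hc hd hcd
  have hdis : Disjoint (cutIn (pathPower n t) S (win n t i))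
      (cutIn (pathPower n t) S (win n t j)) := by
    rw [Finset.disjoint_left]
    intro e he he'
    rw [mem_cutIn] at he he'
    have hadj : e ∈ (pathPower n t).edgeSet := edge_of_mem_cut _ he.1
    induction e with
    | _ x y =>
      have hne : x ≠ y := (show (pathPower n t).Adj x y from hadj).1
      have h1 := mem_win.1 (he.2 x (by simp))
      have h2 := mem_win.1 (he.2 y (by simp))
      have h3 := mem_win.1 (he'.2 x (by simp))
      have h4 := mem_win.1 (he'.2 y (by simp))
      exact hne (Fin.ext (by omega))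
  calc 2 * t ≤ _ + _ := by omega
    _ = _ := (Finset.card_union_of_disjoint hdis).symm
    _ ≤ _ := Finset.card_le_card (Finset.union_subset
        (fun e he => ((mem_cutIn _).1 he).1) (fun e he => ((mem_cutIn _).1 he).1))

/-- Discrete intermediate value theorem. -/
lemma exists_change (x : ℕ → Prop) : ∀ (k a : ℕ), ¬ (x a ↔ x (a + k)) →
    ∃ p, a ≤ p ∧ p < a + k ∧ ¬ (x p ↔ x (p + 1)) := by
  intro k
  induction k with
  | zero => intro a h; exact absurd Iff.rfl h
  | succ k ih =>
    intro a h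
    by_cases h1 : x a ↔ x (a + k)
    · refine ⟨a + k, by omega, by omega, fun h2 => h ?_⟩
      rw [h1, h2]
      rfl
    · obtain ⟨p, hp1, hp2, hp3⟩ := ih a h1
      exact ⟨p, hp1, by omega, hp3⟩

/-- The minimum cut between two vertices in the middle of the path has at least `2 t` edges. -/
lemma cut_middle (ht : 3 ≤ t) (S : Finset (Fin n)) (v w : Fin n) (hv : v ∈ S) (hw : w ∉ S)
    (hv1 : t ≤ (v : ℕ)) (hv2 : (v : ℕ) + t < n) (hw1 : t ≤ (w : ℕ)) (hw2 : (w : ℕ) + t < n) :
    2 * t ≤ (cut (pathPower n t) S).card := by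
  classical
  let x : ℕ → Prop := fun i => ∃ h : i < n, (⟨i, h⟩ : Fin n) ∈ S
  have hx : ∀ (i : ℕ) (h : i < n), x i ↔ (⟨i, h⟩ : Fin n) ∈ S := fun i h =>
    ⟨fun ⟨_, h2⟩ => h2, fun h2 => ⟨h, h2⟩⟩
  -- a change in the middle
  obtain ⟨p, hp1, hp2, hp3⟩ : ∃ p, t ≤ p ∧ p + 1 + t < n ∧ ¬ (x p ↔ x (p + 1)) := by
    rcases lt_or_ge (v : ℕ) w with h | h
    · obtain ⟨k, hk⟩ := Nat.exists_eq_add_of_lt h
      obtain ⟨p, h1, h2, h3⟩ := exists_change x (k + 1) v (by
        rw [← add_assoc, ← hk, hx _ v.2, hx _ w.2]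
        simp [hv, hw])
      exact ⟨p, by omega, by omega, h3⟩
    · have hne : (v : ℕ) ≠ w := by
        intro h; exact hw ((Fin.ext h : v = w) ▸ hv)
      obtain ⟨k, hk⟩ := Nat.exists_eq_add_of_lt (lt_of_le_of_ne h (Ne.symm hne))
      obtain ⟨p, h1, h2, h3⟩ := exists_change x (k + 1) w (by
        rw [← add_assoc, ← hk, hx _ v.2, hx _ w.2]
        simp [hv, hw])
      exact ⟨p, by omega, by omega, h3⟩
  have hpS : ¬ ((⟨p, by omega⟩ : Fin n) ∈ S ↔ (⟨p + 1, by omega⟩ : Fin n) ∈ S) := by
    rw [← hx, ← hx]; exact hp3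
  by_cases hq : ∃ q, q ≠ p ∧ q + 1 < n ∧ ¬ (x q ↔ x (q + 1))
  · obtain ⟨q, hqp, hqn, hq3⟩ := hq
    have hqS : ¬ ((⟨q, by omega⟩ : Fin n) ∈ S ↔ (⟨q + 1, by omega⟩ : Fin n) ∈ S) := by
      rw [← hx, ← hx]; exact hq3
    rcases lt_or_ge q p with h | h
    · refine two_win (i := q + 1 - t) (j := p) (by omega) (by omega) (by omega)
        (mem_win.2 ?_) (mem_win.2 ?_) hqS (mem_win.2 ?_) (mem_win.2 ?_) hpS
      all_goals ((try simp only); omega)
    · refine two_win (i := p + 1 - t) (j := min q (n - 1 - t)) (by omega) (by omega) (by omega)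
        (mem_win.2 ?_) (mem_win.2 ?_) hpS (mem_win.2 ?_) (mem_win.2 ?_) hqS
      all_goals ((try simp only); omega)
  · push Not at hq
    have h1 := win_cut (n := n) (t := t) (S := S) (i := p + 1 - t) (by omega)
      (a := ⟨p, by omega⟩) (b := ⟨p + 1, by omega⟩) (mem_win.2 (by (try simp only); omega))
      (mem_win.2 (by (try simp only); omega)) hpS
    have h2 := win_cut (n := n) (t := t) (S := S) (i := p) (by omega)
      (a := ⟨p, by omega⟩) (b := ⟨p + 1, by omega⟩) (mem_win.2 (by (try simp only); omega))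
      (mem_win.2 (by (try simp only); omega)) hpS
    set F1 := cutIn (pathPower n t) S (win n t (p + 1 - t)) with hF1
    set F2 := cutIn (pathPower n t) S (win n t p) with hF2
    have hinter : (F1 ∩ F2).card ≤ 1 := by
      rw [Finset.card_le_one]
      have key : ∀ e ∈ F1 ∩ F2, e = s((⟨p, by omega⟩ : Fin n), (⟨p + 1, by omega⟩ : Fin n)) := by
        intro e he
        rw [Finset.mem_inter, hF1, hF2, mem_cutIn, mem_cutIn] at he
        obtain ⟨⟨hc, h3⟩, _, h4⟩ := he
        have hadj : e ∈ (pathPower n t).edgeSet := edge_of_mem_cut _ hc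
        induction e with
        | _ a b =>
          have hne : a ≠ b := (show (pathPower n t).Adj a b from hadj).1
          have hne' : (a : ℕ) ≠ b := fun h => hne (Fin.ext h)
          have i1 := mem_win.1 (h3 a (by simp))
          have i2 := mem_win.1 (h3 b (by simp))
          have i3 := mem_win.1 (h4 a (by simp))
          have i4 := mem_win.1 (h4 b (by simp))
          rw [Sym2.eq_iff]
          rcases lt_or_ge (a : ℕ) b with h | h
          · left; constructor <;> apply Fin.ext <;> (try simp only) <;> omega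
          · right; constructor <;> apply Fin.ext <;> (try simp only) <;> omega
      intro e he f hf
      rw [key e he, key f hf]
    -- one more edge
    have hm1 : x (p - 1) ↔ x p := by
      have := hq (p - 1) (by omega) (by omega)
      rwa [show p - 1 + 1 = p by omega] at this
    have hp1' : x (p + 1) ↔ x (p + 2) := hq (p + 1) (by omega) (by omega)
    have hadj3 : (pathPower n t).Adj ⟨p - 1, by omega⟩ ⟨p + 2, by omega⟩ := by
      refine ⟨?_, ?_, ?_⟩
      · intro h; have := congrArg Fin.val h; simp only at this; omega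
      · simp only; omega
      · simp only; omega
    have hcut3 : s((⟨p - 1, by omega⟩ : Fin n), (⟨p + 2, by omega⟩ : Fin n)) ∈
        cut (pathPower n t) S := by
      have h3 : ¬ ((⟨p - 1, by omega⟩ : Fin n) ∈ S ↔ (⟨p + 2, by omega⟩ : Fin n) ∈ S) := by
        rw [← hx, ← hx, hm1, ← hp1']; exact hp3
      by_cases ha : (⟨p - 1, by omega⟩ : Fin n) ∈ S
      · exact mem_cut _ hadj3 ha fun hb => h3 ⟨fun _ => hb, fun _ => ha⟩
      · refine mem_cut' _ hadj3 ha ?_
        by_contra hb
        exact h3 ⟨fun h => absurd h ha, fun h => absurd h hb⟩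
    have hnot : s((⟨p - 1, by omega⟩ : Fin n), (⟨p + 2, by omega⟩ : Fin n)) ∉ F1 ∪ F2 := by
      rw [Finset.mem_union, hF1, hF2, mem_cutIn, mem_cutIn]
      rintro (h | h)
      · have := mem_win.1 (h.2 ⟨p + 2, by omega⟩ (by simp)); simp only at this; omega
      · have := mem_win.1 (h.2 ⟨p - 1, by omega⟩ (by simp)); simp only at this; omega
    have hsub : insert (s((⟨p - 1, by omega⟩ : Fin n), (⟨p + 2, by omega⟩ : Fin n))) (F1 ∪ F2) ⊆
        cut (pathPower n t) S := by
      intro e he
      rcases Finset.mem_insert.1 he with rfl | he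
      · exact hcut3
      · rcases Finset.mem_union.1 he with he | he
        · exact ((mem_cutIn _).1 he).1
        · exact ((mem_cutIn _).1 he).1
    have h5 := Finset.card_le_card hsub
    rw [Finset.card_insert_of_notMem hnot] at h5
    have h6 := Finset.card_union_add_card_inter F1 F2
    omega

/-- A graph whose vertices have at most `t` smaller neighbours has no `(t+1)`-edge-connected
subgraph. -/
lemma no_sub (G : SimpleGraph (Fin n)) [DecidableRel G.Adj]
    (h : ∀ v, (univ.filter fun w => w < v ∧ G.Adj v w).card ≤ t) {s : ℕ} (hs : t < s) :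
    ¬ HasEdgeConnSub G s := by
  classical
  rintro ⟨H, hnt, hcon⟩
  have hne : (H.verts.toFinset).Nonempty := by
    obtain ⟨a, ha⟩ := hnt.nonempty
    exact ⟨a, by simpa using ha⟩
  obtain ⟨v, hv, hmax⟩ := Finset.exists_max_image _ (id : Fin n → Fin n) hne
  have hvH : v ∈ H.verts := by simpa using hv
  have : Nontrivial H.verts := hnt.coe_sort
  have hdeg : s ≤ Nat.card (H.coe.neighborSet ⟨v, hvH⟩) := by
    have inst : Fintype (H.coe.neighborSet ⟨v, hvH⟩) := Fintype.ofFinite _
    rw [Nat.card_eq_fintype_card, card_neighborSet_eq_degree]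
    exact IsEdgeConnected.le_degree hcon
  have hle : Nat.card (H.coe.neighborSet ⟨v, hvH⟩) ≤
      Nat.card {w // w ∈ (univ.filter fun w => w < v ∧ G.Adj v w)} := by
    have hf : ∀ w : H.coe.neighborSet ⟨v, hvH⟩,
        (w : H.verts).1 ∈ (univ.filter fun w => w < v ∧ G.Adj v w) := by
      rintro ⟨w, hw⟩
      have hadj : H.Adj v w := hw
      have hG := hadj.adj_sub
      rw [Finset.mem_filter]
      exact ⟨Finset.mem_univ _, lt_of_le_of_ne (hmax w (by simp)) hG.ne', hG⟩
    refine Nat.card_le_card_of_injective (fun w => ⟨_, hf w⟩) ?_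
    intro a b hab
    simp only [Subtype.mk.injEq] at hab
    exact Subtype.ext (Subtype.ext hab)
  rw [Nat.card_eq_fintype_card (α := {w // w ∈ (univ.filter fun w => w < v ∧ G.Adj v w)}),
    Fintype.card_coe] at hle
  have := h v
  omega

lemma pathPower_back (v : Fin n) :
    (univ.filter fun w => w < v ∧ (pathPower n t).Adj v w).card ≤ t := by
  have : (univ.filter fun w => w < v ∧ (pathPower n t).Adj v w).map Fin.valEmbedding ⊆
      Finset.Ico ((v : ℕ) - t) v := by
    intro x hx
    simp only [Finset.mem_map, Finset.mem_filter, Finset.mem_univ, true_and,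
      Fin.valEmbedding_apply] at hx
    obtain ⟨a, ⟨h1, h2, h3, h4⟩, rfl⟩ := hx
    rw [Finset.mem_Ico]
    have : (a : ℕ) < v := h1
    omega
  have h2 := Finset.card_le_card this
  rw [Finset.card_map, Nat.card_Ico] at h2
  omega

end window

end Q130.EC
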