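import Pool.Agent.Q130.EC.Path

/-!
# Three small graphs (MP_3eb4be)
-/

namespace Q130.EC

open SimpleGraph Finset Pool.Agent.H157R2.Menger

/-- The graph with the edges of a list. -/
def listGraph {n : ℕ} (l : List (Fin n × Fin n)) : SimpleGraph (Fin n) where
  Adj i j := i ≠ j ∧ ((i, j) ∈ l ∨ (j, i) ∈ l)
  symm := ⟨fun _ _ h => ⟨h.1.symm, h.2.symm⟩⟩
  loopless := ⟨fun _ h => h.1 rfl⟩

instance {n : ℕ} (l : List (Fin n × Fin n)) : DecidableRel (listGraph l).Adj :=
  fun i j => inferInstanceAs (Decidable (i ≠ j ∧ ((i, j) ∈ l ∨ (j, i) ∈ l)))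

/-- The number of edges of the list crossing the cut given by `x`. -/
def crossing {n : ℕ} (l : List (Fin n × Fin n)) (x : Fin n → Bool) : ℕ :=
  (l.filter fun e => x e.1 != x e.2).length

lemma crossing_le {n : ℕ} (l : List (Fin n × Fin n)) (hl : ∀ e ∈ l, e.1 < e.2) (hn : l.Nodup)
    (S : Finset (Fin n)) : crossing l (fun i => decide (i ∈ S)) ≤ (cut (listGraph l) S).card := by
  classical
  have h1 : (l.filter fun e => decide (e.1 ∈ S) != decide (e.2 ∈ S)).Nodup := hn.filter _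
  rw [crossing, ← List.toFinset_card_of_nodup h1]
  refine Finset.card_le_card_of_injOn (fun e => s(e.1, e.2)) ?_ ?_
  · intro e he
    rw [Finset.mem_coe, List.mem_toFinset, List.mem_filter] at he
    have hadj : (listGraph l).Adj e.1 e.2 := ⟨(hl e he.1).ne, Or.inl he.1⟩
    rw [Finset.mem_coe]
    by_cases ha : e.1 ∈ S <;> by_cases hb : e.2 ∈ S
    · simp [ha, hb] at he
    · exact mem_cut _ hadj ha hb
    · exact mem_cut' _ hadj ha hb
    · simp [ha, hb] at he
  · intro e he f hf hef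
    rw [Finset.mem_coe, List.mem_toFinset, List.mem_filter] at he hf
    simp only [Sym2.eq_iff] at hef
    rcases hef with h | h
    · exact Prod.ext h.1 h.2
    · have h1 := hl e he.1
      have h2 := hl f hf.1
      rw [h.1, h.2] at h1
      exact absurd h1 (not_lt.2 h2.le)

/-- The list of the edges of the graph with average edge-connectivity `136/45 > 3`. -/
def l10 : List (Fin 10 × Fin 10) :=
  [(0, 1), (0, 2), (0, 3), (1, 2), (1, 4), (1, 5), (2, 3), (2, 6), (3, 4), (3, 7), (4, 5), (4, 8),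
   (5, 6), (5, 7), (6, 9), (7, 8), (8, 9)]

/-- `λ(u, v) = min (wt u) (wt v)`. -/
def wt : Fin 10 → ℕ := ![3, 4, 4, 4, 4, 4, 3, 3, 3, 2]

lemma check10 : ∀ b0 b1 b2 b3 b4 b5 b6 b7 b8 b9 : Bool,
    (4 ≤ crossing l10 ![b0, b1, b2, b3, b4, b5, b6, b7, b8, b9] ∨
    ∀ u v : Fin 10, ![b0, b1, b2, b3, b4, b5, b6, b7, b8, b9] u = true →
      ![b0, b1, b2, b3, b4, b5, b6, b7, b8, b9] v = false →
      min (wt u) (wt v) ≤ crossing l10 ![b0, b1, b2, b3, b4, b5, b6, b7, b8, b9]) := by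
  decide +kernel

lemma wt_le : ∀ u, wt u ≤ 4 := by decide

/-- `λ(u, v) ≥ min (wt u) (wt v)`. -/
lemma lam10 (u v : Fin 10) (huv : u ≠ v) : min (wt u) (wt v) ≤ lam (listGraph l10) u v := by
  refine le_lam _ huv _ fun S hu hv => ?_
  refine le_trans ?_ (crossing_le l10 (by decide) (by decide) S)
  have hx : (fun i => decide (i ∈ S)) = ![decide ((0 : Fin 10) ∈ S), decide ((1 : Fin 10) ∈ S),
      decide ((2 : Fin 10) ∈ S), decide ((3 : Fin 10) ∈ S), decide ((4 : Fin 10) ∈ S),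
      decide ((5 : Fin 10) ∈ S), decide ((6 : Fin 10) ∈ S), decide ((7 : Fin 10) ∈ S),
      decide ((8 : Fin 10) ∈ S), decide ((9 : Fin 10) ∈ S)] := by
    funext i
    fin_cases i <;> rfl
  rw [hx]
  rcases check10 (decide ((0 : Fin 10) ∈ S)) (decide ((1 : Fin 10) ∈ S))
      (decide ((2 : Fin 10) ∈ S)) (decide ((3 : Fin 10) ∈ S)) (decide ((4 : Fin 10) ∈ S))
      (decide ((5 : Fin 10) ∈ S)) (decide ((6 : Fin 10) ∈ S)) (decide ((7 : Fin 10) ∈ S))
      (decide ((8 : Fin 10) ∈ S)) (decide ((9 : Fin 10) ∈ S)) with h | h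
  · exact le_trans (min_le_of_left_le (wt_le u)) h
  · refine h u v ?_ ?_
    · rw [← hx]; simpa using hu
    · rw [← hx]; simpa using hv

lemma sum_wt : ∑ v : Fin 10, ∑ w ∈ univ.erase v, min (wt v) (wt w) = 272 := by decide +kernel

lemma back10 : ∀ v, (univ.filter fun w => w < v ∧ (listGraph l10).Adj v w).card ≤ 2 := by
  decide +kernel

end Q130.EC
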